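import Pool.Agent.Work.MP_3489b6_co.Hedge.Main

open Pool.Agent.Work.MP_3489b6_co Pool.Agent.Work.MP_3489b6_co.Hedge

namespace Pool.Agent.Results.MP_3489b6_co.ForestEigenvalue

/-- Up to a universal factor, the magneto-spectral height of a finite graph is the least Dirichlet
eigenvalue of an induced forest. -/
theorem result (V : Type) [Fintype V] [Nonempty V] (G : SimpleGraph V) [DecidableRel G.Adj] :
    tau G / 357 ≤ nu G ∧ nu G ≤ tau G := by
  classical
  exact ⟨lower G, upper G⟩

end Pool.Agent.Results.MP_3489b6_co.ForestEigenvalue
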