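import Pool.Agent.Work.MP_3489b6_co.Proof

open Pool.Agent.Work.MP_3489b6_co

namespace Pool.Agent.Results.MP_3489b6_co.LowerBound

/-- For every `d ≥ 3` the number `d - 2 √(d - 1)` is positive and is a lower bound for the
magneto-spectral height of every finite graph of minimum degree at least `d`.
The case `d = 3` gives `ν₃ ≥ 3 - 2 √2 > 0`. -/
theorem result (d : ℕ) (hd : 3 ≤ d) :
    0 < (d : ℝ) - 2 * √((d : ℝ) - 1) ∧
      ∀ (V : Type) [Fintype V] (G : SimpleGraph V) [DecidableRel G.Adj],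
        d ≤ G.minDegree → (d : ℝ) - 2 * √((d : ℝ) - 1) ≤ nu G :=
  ⟨bound_pos d hd, fun _ _ G _ hG => main G d hd hG⟩

end Pool.Agent.Results.MP_3489b6_co.LowerBound
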